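import Pool.Agent.HMG.Defs

set_option autoImplicit false

/-!
# General lemmas on minimal group topologies
-/

open Topology Filter

namespace Pool.Agent.HMG

/-- A continuous bijective homomorphism to a Hausdorff group transports minimality. -/
theorem IsMinimalGroup.of_bijective {H K : Type*} [Group H] [tH : TopologicalSpace H] [Group K]
    [tK : TopologicalSpace K] (f : H →* K) (hf : Continuous f) (hb : Function.Bijective f)
    (h : IsMinimalGroup H) : IsMinimalGroup K := by
  intro s hs hg hle
  have h1 : s.induced f = tH := by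
    refine h (s.induced f) ?_ ?_ ?_
    · exact @T2Space.of_injective_continuous H K (s.induced f) s hs f hb.1 continuous_induced_dom
    · exact @topologicalGroup_induced K H s _ hg _ _ _ _ f
    · exact le_trans (@Continuous.le_induced H K tH tK f hf) (induced_mono hle)
  refine le_antisymm ?_ hle
  intro A hA
  have h2 : @IsOpen H tH (f ⁻¹' A) := @IsOpen.preimage H K tH tK f hf A hA
  rw [← h1] at h2
  obtain ⟨B, hB, hBA⟩ := isOpen_induced_iff.1 h2
  have h3 : B = A := hb.2.preimage_injective hBA
  rw [← h3]
  exact hB

/-- Continuous homomorphic images of totally minimal groups are totally minimal. -/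
theorem IsTotallyMinimalGroup.of_surjective {H K : Type*} [Group H] [TopologicalSpace H]
    [Group K] [TopologicalSpace K] (f : H →* K) (hf : Continuous f)
    (hs : Function.Surjective f) (h : IsTotallyMinimalGroup H) : IsTotallyMinimalGroup K := by
  intro N hN hNc
  let g : H →* K ⧸ N := (QuotientGroup.mk' N).comp f
  have hg : Continuous g := QuotientGroup.continuous_mk.comp hf
  have hgs : Function.Surjective g := (QuotientGroup.mk'_surjective N).comp hs
  have hker : (g.ker : Set H) = f ⁻¹' N := by
    ext x
    simp [g, MonoidHom.mem_ker]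
  have h1 : IsMinimalGroup (H ⧸ g.ker) := by
    refine h g.ker inferInstance ?_
    rw [hker]
    exact hNc.preimage hf
  refine h1.of_bijective (QuotientGroup.kerLift g) ?_ ?_
  · exact continuous_quot_lift _ hg
  · exact ⟨QuotientGroup.kerLift_injective g, fun y => by
      obtain ⟨x, hx⟩ := hgs y
      exact ⟨QuotientGroup.mk x, hx⟩⟩

/-- Criterion for hereditary minimality. -/
theorem criterion {G : Type*} [Group G] [tG : TopologicalSpace G] [hGG : IsTopologicalGroup G]
    (Z : Subgroup G) (hZ : ∀ C : Subgroup G, C ≤ Z → IsMinimalGroup C) (n : ℕ) (U : Set G)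
    (hU : U ∈ 𝓝 (1 : G)) (h : ∀ g : G, g ∉ Z → g ^ n ∈ Z ∧ g ^ n ∉ U) : IsHM G := by
  intro H
  let C : Subgroup G := H ⊓ Z
  let i : C →* H := Subgroup.inclusion inf_le_left
  have hi : Function.Injective i := Subgroup.inclusion_injective _
  have hC : IsMinimalGroup C := hZ C inf_le_right
  have hUH : (Subtype.val ⁻¹' U : Set H) ∈ 𝓝 (1 : H) := by
    have h0 : ContinuousAt (Subtype.val : H → G) 1 := continuous_subtype_val.continuousAt
    exact h0 (by simpa using hU)
  obtain ⟨tH, htH⟩ : ∃ tH : TopologicalSpace H, tH = instTopologicalSpaceSubtype := ⟨_, rfl⟩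
  obtain ⟨tC, htC0⟩ : ∃ tC : TopologicalSpace C, tC = instTopologicalSpaceSubtype := ⟨_, rfl⟩
  have hgH : @IsTopologicalGroup H tH _ := by
    rw [htH]
    infer_instance
  have htC : tC = tH.induced i := by
    rw [htH, htC0]
    show TopologicalSpace.induced _ _ = TopologicalSpace.induced _ (TopologicalSpace.induced _ _)
    rw [induced_compose]
    rfl
  have hC' : @IsMinimalGroup C _ tC := by
    rw [htC0]
    exact hC
  have hUH' : (Subtype.val ⁻¹' U : Set H) ∈ @nhds H tH 1 := by
    rw [htH]
    exact hUH
  have goal : @IsMinimalGroup H _ tH := by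
    intro s hs hg hle
    have key : s.induced i = tC := by
      refine hC' (s.induced i) ?_ ?_ ?_
      · exact @T2Space.of_injective_continuous C H (s.induced i) s hs i hi continuous_induced_dom
      · exact @topologicalGroup_induced H C s _ hg _ _ _ _ i
      · rw [htC]
        exact induced_mono hle
    -- neighbourhoods of 1 in `C`
    have hnh : Filter.comap i (@nhds H s 1) = Filter.comap i (@nhds H tH 1) := by
      have e1 := @nhds_induced H C s i 1
      have e2 := @nhds_induced H C tH i 1
      rw [map_one] at e1 e2
      rw [← e1, ← e2, key, ← htC]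
    -- the traces
    have htr : ∀ A ∈ @nhds H tH 1, ∃ B ∈ @nhds H s 1, ∀ x ∈ B, (x : G) ∈ Z → x ∈ A := by
      intro A hA
      have h1 : i ⁻¹' A ∈ Filter.comap i (@nhds H tH 1) := Filter.preimage_mem_comap hA
      rw [← hnh, Filter.mem_comap] at h1
      obtain ⟨B, hB, hBA⟩ := h1
      refine ⟨B, hB, fun x hx hxZ => ?_⟩
      exact hBA (a := ⟨(x : G), ⟨x.2, hxZ⟩⟩) hx
    obtain ⟨W, hW, hWU⟩ := htr _ hUH'
    have hpow : (fun x : H => x ^ n) ⁻¹' W ∈ @nhds H s 1 := by
      have hc : @Continuous H H s s (fun x : H => x ^ n) := @continuous_pow H s _ _ n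
      have h0 := @Continuous.continuousAt H H s s _ 1 hc
      refine h0 ?_
      simpa using hW
    have hCo : {x : H | (x : G) ∈ Z} ∈ @nhds H s 1 := by
      refine Filter.mem_of_superset hpow ?_
      intro x hx
      by_contra hxZ
      have hxZ' : (x : G) ∉ Z := hxZ
      obtain ⟨h1, h2⟩ := h x hxZ'
      have h3 : ((x ^ n : H) : G) ∈ Z := by simpa using h1
      exact h2 (by simpa using hWU _ hx h3)
    refine @IsTopologicalGroup.ext H _ s tH hg hgH ?_
    refine le_antisymm ?_ (nhds_mono hle)
    intro A hA
    obtain ⟨B, hB, hBA⟩ := htr A hA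
    exact Filter.mem_of_superset (Filter.inter_mem hB hCo) fun x hx => hBA x hx.1 hx.2
  rw [htH] at goal
  exact goal

/-- Every Hausdorff group topology on `K` is discrete. -/
def NT (K : Type*) [Group K] : Prop :=
  ∀ s : TopologicalSpace K, @T2Space K s → @IsTopologicalGroup K s _ → s = ⊥

theorem NT.of_bijective {K P : Type*} [Group K] [Group P] (f : K →* P)
    (hb : Function.Bijective f) (h : NT K) : NT P := by
  intro s hs hg
  have h1 : s.induced f = ⊥ := by
    refine h (s.induced f) ?_ ?_
    · exact @T2Space.of_injective_continuous K P (s.induced f) s hs f hb.1 continuous_induced_dom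
    · exact @topologicalGroup_induced P K s _ hg _ _ _ _ f
  refine le_antisymm ?_ bot_le
  intro A hA
  have h2 : @IsOpen K (s.induced f) (f ⁻¹' A) := by
    rw [h1]
    trivial
  obtain ⟨B, hB, hBA⟩ := isOpen_induced_iff.1 h2
  have h3 : B = A := hb.2.preimage_injective hBA
  rw [← h3]
  exact hB

/-- If `K` maps onto `P` with finite kernel and `P` has only the discrete Hausdorff group
topology, then so does `K`. -/
theorem NT.of_finite_ker {K P : Type*} [Group K] [Group P] (f : K →* P)
    (hs : Function.Surjective f) (hfin : (f.ker : Set K).Finite) (h : NT P) : NT K := by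
  have h1 : NT (K ⧸ f.ker) :=
    h.of_bijective (QuotientGroup.quotientKerEquivOfSurjective f hs).symm.toMonoidHom
      (QuotientGroup.quotientKerEquivOfSurjective f hs).symm.bijective
  intro s hs2 hg
  let _ := s
  have : T2Space K := hs2
  have : IsTopologicalGroup K := hg
  have hcl : IsClosed (f.ker : Set K) := hfin.isClosed
  have h2 : QuotientGroup.instTopologicalSpace f.ker = ⊥ :=
    h1 _ inferInstance inferInstance
  have h3 : IsOpen ({1} : Set (K ⧸ f.ker)) := by
    rw [h2]
    trivial
  have h4 : IsOpen (f.ker : Set K) := by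
    have := h3.preimage (QuotientGroup.continuous_mk (N := f.ker))
    convert this using 1
    ext x
    simp [QuotientGroup.eq_one_iff]
  have h5 : IsOpen ({1} : Set K) := by
    have h6 : IsClosed ((f.ker : Set K) \ {1}) := (hfin.subset Set.sdiff_subset).isClosed
    have h7 : ({1} : Set K) = (f.ker : Set K) ∩ ((f.ker : Set K) \ {1})ᶜ := by
      ext x
      simp only [Set.mem_singleton_iff, Set.mem_inter_iff, Set.mem_compl_iff, Set.mem_sdiff,
        SetLike.mem_coe, not_and, not_not]
      constructor
      · rintro rfl
        exact ⟨f.ker.one_mem, fun _ => rfl⟩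
      · rintro ⟨hx, hx'⟩
        exact hx' hx
    rw [h7]
    exact h4.inter h6.isOpen_compl
  have := discreteTopology_of_isOpen_singleton_one h5
  exact DiscreteTopology.eq_bot

end Pool.Agent.HMG
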