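import Pool.Agent.HMG.Main

set_option autoImplicit false

/-!
# From torsion-free groups with infinite cyclic centre to locally compact groups
-/

open Topology Filter

namespace Pool.Agent.HMG

/-- Hereditary total minimality passes to continuous homomorphic images. -/
theorem IsHTM.of_surjective {K L : Type*} [Group K] [TopologicalSpace K] [Group L]
    [TopologicalSpace L] (f : K →* L) (hf : Continuous f) (hs : Function.Surjective f)
    (h : IsHTM K) : IsHTM L := by
  intro H
  let M : Subgroup K := H.comap f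
  let g : M →* H := (f.comp M.subtype).codRestrict H (fun x => x.2)
  have hg : Continuous g := Continuous.subtype_mk (hf.comp continuous_subtype_val) _
  have hgs : Function.Surjective g := by
    rintro ⟨y, hy⟩
    obtain ⟨x, rfl⟩ := hs y
    exact ⟨⟨x, hy⟩, rfl⟩
  exact (h M).of_surjective g hg hgs

section
variable (p : ℕ) [hp : Fact p.Prime] {A : Type} [Group A] (c : A)

/-- The subgroup generated by `(c, -1)` in `A × ℤ_p`. -/
noncomputable def antidiag : Subgroup (A × Multiplicative ℤ_[p]) :=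
  Subgroup.zpowers ((c, Multiplicative.ofAdd (-1 : ℤ_[p])) : A × Multiplicative ℤ_[p])

theorem mem_antidiag (q : A × Multiplicative ℤ_[p]) :
    q ∈ antidiag p c ↔ ∃ j : ℤ, q.1 = c ^ j ∧ q.2.toAdd = -(j : ℤ_[p]) := by
  unfold antidiag
  rw [Subgroup.mem_zpowers_iff]
  constructor
  · rintro ⟨j, rfl⟩
    refine ⟨j, rfl, ?_⟩
    show Multiplicative.toAdd (Multiplicative.ofAdd (-1 : ℤ_[p]) ^ j) = _
    rw [toAdd_zpow, toAdd_ofAdd]
    simp
  · rintro ⟨j, h1, h2⟩
    refine ⟨j, ?_⟩
    refine Prod.ext h1.symm ?_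
    apply Multiplicative.toAdd.injective
    rw [h2]
    show Multiplicative.toAdd (Multiplicative.ofAdd (-1 : ℤ_[p]) ^ j) = _
    rw [toAdd_zpow, toAdd_ofAdd]
    simp

theorem zpow_inj (torsionFree : ∀ (a : A) (m : ℕ), 0 < m → a ^ m = 1 → a = 1) (hc : c ≠ 1)
    (i : ℤ) (h : c ^ i = 1) : i = 0 := by
  by_contra hi
  have h1 : c ^ i.natAbs = 1 := by
    rcases Int.natAbs_eq i with h2 | h2
    · rw [← zpow_natCast, ← h2]
      exact h
    · rw [h2, zpow_neg, inv_eq_one, zpow_natCast] at h
      exact h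
  exact hc (torsionFree c _ (Int.natAbs_pos.2 hi) h1)

end

/-- The construction. -/
theorem construct (p : ℕ) [hp : Fact p.Prime] (A : Type) [Group A]
    (torsionFree : ∀ (a : A) (m : ℕ), 0 < m → a ^ m = 1 → a = 1)
    (c : A) (hc : c ≠ 1) (center_eq : Subgroup.center A = Subgroup.zpowers c)
    (k : ℕ) (exponent : ∀ a : A, a ^ (p ^ k) ∈ Subgroup.center A) :
    ∃ (G : Type) (_ : Group G) (_ : TopologicalSpace G) (_ : IsTopologicalGroup G),
      T2Space G ∧ LocallyCompactSpace G ∧ ¬ DiscreteTopology G ∧ Subgroup.center G ≠ ⊥ ∧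
      IsHM G ∧ (IsHTM G ↔ @IsHTM (A ⧸ Subgroup.center A) _ ⊥) := by
  let tA : TopologicalSpace A := ⊥
  have hdA : DiscreteTopology A := ⟨rfl⟩
  have hinj := zpow_inj c torsionFree hc
  have hcc : c ∈ Subgroup.center A := by
    rw [center_eq]
    exact Subgroup.mem_zpowers c
  have hnorm : (antidiag p c).Normal := by
    refine ⟨fun q hq g => ?_⟩
    rw [mem_antidiag] at hq ⊢
    obtain ⟨j, h1, h2⟩ := hq
    refine ⟨j, ?_, ?_⟩
    · show g.1 * q.1 * g.1⁻¹ = c ^ j
      rw [h1]
      have h3 : c ^ j ∈ Subgroup.center A := Subgroup.zpow_mem _ hcc j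
      rw [Subgroup.mem_center_iff.1 h3 g.1, mul_inv_cancel_right]
    · show (g.2 * q.2 * g.2⁻¹).toAdd = _
      rw [mul_comm g.2, mul_inv_cancel_right, h2]
  have hclosed : IsClosed (antidiag p c : Set (A × Multiplicative ℤ_[p])) := by
    rw [← isOpen_compl_iff, isOpen_iff_mem_nhds]
    rintro ⟨a, z⟩ haz
    have h1 : {z' : Multiplicative ℤ_[p] | (a, z') ∈ antidiag p c}.Subsingleton := by
      intro x hx y hy
      rw [Set.mem_ofPred_eq, mem_antidiag] at hx hy
      obtain ⟨i, hi1, hi2⟩ := hx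
      obtain ⟨j, hj1, hj2⟩ := hy
      have h2 : i - j = 0 := hinj _ (by
        rw [zpow_sub, ← hi1, ← hj1, mul_inv_cancel])
      have h3 : i = j := by omega
      apply Multiplicative.toAdd.injective
      rw [hi2, hj2, h3]
    have h4 : {z' : Multiplicative ℤ_[p] | (a, z') ∈ antidiag p c}ᶜ ∈ 𝓝 z :=
      (h1.isClosed.isOpen_compl).mem_nhds haz
    rw [nhds_prod_eq, nhds_discrete, Filter.mem_prod_iff]
    refine ⟨{a}, rfl, _, h4, ?_⟩
    rintro ⟨a', z'⟩ ⟨ha', hz'⟩
    have h5 : a' = a := ha'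
    subst h5
    exact hz'
  let G := (A × Multiplicative ℤ_[p]) ⧸ antidiag p c
  have hT2 : T2Space G := inferInstance
  have hLC : LocallyCompactSpace G := inferInstance
  let ι : Multiplicative ℤ_[p] →* G :=
    (QuotientGroup.mk' (antidiag p c)).comp (MonoidHom.inr A (Multiplicative ℤ_[p]))
  have hιc : Continuous ι := QuotientGroup.continuous_mk.comp
    (continuous_const.prodMk continuous_id)
  have hιval : ∀ z, ι z = QuotientGroup.mk (1, z) := fun z => rfl
  have hιinj : Function.Injective ι := by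
    rw [injective_iff_map_eq_one]
    intro z hz
    rw [hιval, QuotientGroup.eq_one_iff, mem_antidiag] at hz
    obtain ⟨j, h1, h2⟩ := hz
    have h3 : j = 0 := hinj j h1.symm
    rw [h3] at h2
    apply Multiplicative.toAdd.injective
    rw [h2]
    simp
  have hιopen : IsOpenMap ι := by
    intro U hU
    have h1 : IsOpen (({1} : Set A) ×ˢ U) := (isOpen_discrete _).prod hU
    have h2 := QuotientGroup.isOpenMap_coe (N := antidiag p c) _ h1
    convert h2 using 1
    ext g
    constructor
    · rintro ⟨z, hz, rfl⟩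
      exact ⟨(1, z), ⟨rfl, hz⟩, rfl⟩
    · rintro ⟨⟨a, z⟩, ⟨ha, hz⟩, rfl⟩
      have ha' : a = 1 := ha
      subst ha'
      exact ⟨z, hz, rfl⟩
  have hcentral : ∀ (a : A) (z : Multiplicative ℤ_[p]),
      (QuotientGroup.mk (a, z) : G) ∈ Subgroup.center G ↔ a ∈ Subgroup.center A := by
    intro a z
    constructor
    · intro h
      rw [Subgroup.mem_center_iff] at h ⊢
      intro b
      have h1 : (QuotientGroup.mk ((b, 1) * (a, z)) : G) = QuotientGroup.mk ((a, z) * (b, 1)) :=
        h (QuotientGroup.mk (b, 1))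
      have h2 := QuotientGroup.eq.1 h1
      rw [mem_antidiag] at h2
      obtain ⟨j, h3, h4⟩ := h2
      have h5 : (((b, 1) * (a, z))⁻¹ * ((a, z) * (b, 1)) : A × Multiplicative ℤ_[p]).2 = 1 := by
        show (1 * z)⁻¹ * (z * 1) = 1
        rw [one_mul, mul_one, inv_mul_cancel]
      rw [h5] at h4
      have h6 : (j : ℤ_[p]) = 0 := by
        have h7 : (0 : ℤ_[p]) = -(j : ℤ_[p]) := h4
        rw [← neg_eq_zero, ← h7]
      have h8 : j = 0 := by exact_mod_cast h6
      rw [h8, zpow_zero] at h3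
      have h9 : (b * a)⁻¹ * (a * b) = 1 := h3
      exact (inv_mul_eq_one.1 h9)
    · intro h
      rw [Subgroup.mem_center_iff] at h ⊢
      intro g
      obtain ⟨⟨b, w⟩, rfl⟩ := QuotientGroup.mk_surjective g
      show (QuotientGroup.mk ((b, w) * (a, z)) : G) = QuotientGroup.mk ((a, z) * (b, w))
      congr 1
      exact Prod.ext (h b) (mul_comm w z)
  have hdecomp : ∀ (a : A) (z : Multiplicative ℤ_[p]) (j : ℤ), a = c ^ j →
      (QuotientGroup.mk (a, z) : G) = ι (Multiplicative.ofAdd (z.toAdd + j)) := by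
    intro a z j ha
    rw [hιval]
    refine QuotientGroup.eq.2 ?_
    rw [mem_antidiag]
    refine ⟨-j, ?_, ?_⟩
    · show a⁻¹ * 1 = _
      rw [ha, mul_one, zpow_neg]
    · show (z⁻¹ * Multiplicative.ofAdd (z.toAdd + j)).toAdd = _
      rw [toAdd_mul, toAdd_inv, toAdd_ofAdd]
      push_cast
      ring
  have hrange : ∀ g : G, g ∈ Subgroup.center G ↔ ∃ z, ι z = g := by
    intro g
    obtain ⟨⟨a, z⟩, rfl⟩ := QuotientGroup.mk_surjective g
    rw [hcentral]
    constructor
    · intro h
      rw [center_eq, Subgroup.mem_zpowers_iff] at h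
      obtain ⟨j, hj⟩ := h
      exact ⟨_, (hdecomp a z j hj.symm).symm⟩
    · rintro ⟨w, hw⟩
      rw [← hcentral a z, ← hw, hιval, hcentral]
      exact Subgroup.one_mem _
  have hcenter_set : (Subgroup.center G : Set G) = Set.range ι := by
    ext g
    exact hrange g
  have hopen : IsOpen (Subgroup.center G : Set G) := by
    rw [hcenter_set]
    exact hιopen.isOpen_range
  -- the isomorphism
  let j0 : Multiplicative ℤ_[p] →* Subgroup.center G :=
    ι.codRestrict (Subgroup.center G) (fun z => (hrange _).2 ⟨z, rfl⟩)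
  have hj0 : Function.Bijective j0 := by
    constructor
    · intro a b hab
      exact hιinj (congrArg Subtype.val hab)
    · rintro ⟨g, hg⟩
      obtain ⟨z, hz⟩ := (hrange g).1 hg
      exact ⟨z, Subtype.ext hz⟩
  let e0 : Multiplicative ℤ_[p] ≃* Subgroup.center G := MulEquiv.ofBijective j0 hj0
  have he0c : Continuous e0 := Continuous.subtype_mk hιc _
  have he0o : IsOpenMap e0 := by
    intro U hU
    rw [isOpen_induced_iff]
    refine ⟨ι '' U, hιopen U hU, ?_⟩
    ext g
    constructor
    · rintro ⟨z, hz, hzg⟩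
      exact ⟨z, hz, Subtype.ext hzg⟩
    · rintro ⟨z, hz, rfl⟩
      exact ⟨z, hz, rfl⟩
  let e : Subgroup.center G ≃ₜ* Multiplicative ℤ_[p] :=
    { e0.symm with
      continuous_toFun := by
        rw [continuous_def]
        intro U hU
        have h1 := he0o U hU
        convert h1 using 1
        ext g
        constructor
        · intro hg
          exact ⟨e0.symm g, hg, e0.apply_symm_apply g⟩
        · rintro ⟨z, hz, rfl⟩
          show e0.symm (e0 z) ∈ U
          rw [e0.symm_apply_apply]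
          exact hz
      continuous_invFun := he0c }
  -- torsion-freeness
  have htf : ∀ (g : G) (m : ℕ), 0 < m → g ^ m = 1 → g = 1 := by
    intro g m hm hg
    obtain ⟨⟨a, z⟩, rfl⟩ := QuotientGroup.mk_surjective g
    have h1 : (QuotientGroup.mk ((a, z) ^ m) : G) = 1 := hg
    rw [QuotientGroup.eq_one_iff, mem_antidiag] at h1
    obtain ⟨j, h2, h3⟩ := h1
    have h2' : a ^ m = c ^ j := h2
    have h3' : (m : ℤ_[p]) * z.toAdd = -(j : ℤ_[p]) := by
      rw [← h3]
      show _ = (z ^ m).toAdd
      rw [toAdd_pow, nsmul_eq_mul]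
    have h4 := exponent a
    rw [center_eq, Subgroup.mem_zpowers_iff] at h4
    obtain ⟨i, hi⟩ := h4
    have h5 : i * m = j * (p ^ k : ℕ) := by
      have h6 : c ^ (i * m - j * (p ^ k : ℕ)) = 1 := by
        rw [zpow_sub, zpow_mul, zpow_mul, hi, ← h2', zpow_natCast, zpow_natCast, ← pow_mul,
          ← pow_mul, mul_comm (p ^ k) m, mul_inv_cancel]
      have := hinj _ h6
      omega
    have hm0 : (m : ℤ_[p]) ≠ 0 := by exact_mod_cast hm.ne'
    have h7 : ((p ^ k : ℕ) : ℤ_[p]) * z.toAdd = -(i : ℤ_[p]) := by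
      apply mul_left_cancel₀ hm0
      have h8 : ((i * m : ℤ) : ℤ_[p]) = ((j * (p ^ k : ℕ) : ℤ) : ℤ_[p]) := by rw [h5]
      push_cast at h8 ⊢
      linear_combination ((p : ℤ_[p]) ^ k) * h3' + h8
    have h9 : ((p ^ k : ℕ) : ℤ) ∣ i := by
      have h10 : ((p : ℤ_[p])) ^ k ∣ (i : ℤ_[p]) := by
        refine ⟨-z.toAdd, ?_⟩
        push_cast at h7
        linear_combination h7
      have h11 := PadicInt.norm_int_le_pow_iff_dvd.1
        ((PadicInt.norm_le_pow_iff_mem_span_pow (i : ℤ_[p]) k).2
          (Ideal.mem_span_singleton.2 h10))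
      exact_mod_cast h11
    obtain ⟨i', hi'⟩ := h9
    have hpk : 0 < p ^ k := pow_pos hp.out.pos k
    have h12 : (a * (c ^ i')⁻¹) ^ (p ^ k) = 1 := by
      have h13 : Commute a ((c ^ i')⁻¹) := by
        have h14 : c ^ i' ∈ Subgroup.center A := Subgroup.zpow_mem _ hcc i'
        have h15 : Commute a (c ^ i') := Subgroup.mem_center_iff.1 h14 a
        exact h15.inv_right
      rw [h13.mul_pow, inv_pow, ← zpow_natCast (c ^ i'), ← zpow_mul, ← hi, hi',
        mul_comm i', mul_inv_cancel]
    have h16 : a = c ^ i' := mul_inv_eq_one.1 (torsionFree _ _ hpk h12)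
    rw [QuotientGroup.eq_one_iff, mem_antidiag]
    refine ⟨i', h16, ?_⟩
    have hpk0 : ((p ^ k : ℕ) : ℤ_[p]) ≠ 0 := by exact_mod_cast hpk.ne'
    apply mul_left_cancel₀ hpk0
    rw [h7, hi']
    push_cast
    ring
  have hexp : ∀ g : G, g ^ (p ^ k) ∈ Subgroup.center G := by
    intro g
    obtain ⟨⟨a, z⟩, rfl⟩ := QuotientGroup.mk_surjective g
    show (QuotientGroup.mk ((a ^ (p ^ k), z ^ (p ^ k))) : G) ∈ Subgroup.center G
    rw [hcentral]
    exact exponent a
  have hpk : 0 < p ^ k := pow_pos hp.out.pos k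
  have hHM : IsHM G := isHM_of_exponent htf hopen e _ hpk hexp
  refine ⟨G, inferInstance, inferInstance, inferInstance, hT2, hLC, ?_, ?_, hHM, ?_⟩
  · intro hdisc
    have h1 : DiscreteTopology (Multiplicative ℤ_[p]) :=
      DiscreteTopology.of_continuous_injective hιc hιinj
    have h2 : Finite (Multiplicative ℤ_[p]) := finite_of_compact_of_discrete
    have h3 : Finite ℤ_[p] := h2
    exact not_finite ℤ_[p]
  · intro hbot
    have h1 : ι (Multiplicative.ofAdd 1) ∈ Subgroup.center G := (hrange _).2 ⟨_, rfl⟩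
    rw [hbot, Subgroup.mem_bot] at h1
    have h2 : Multiplicative.ofAdd (1 : ℤ_[p]) = 1 := hιinj (by rw [h1, map_one])
    have h3 : (1 : ℤ_[p]) = 0 := h2
    exact one_ne_zero h3
  · let tQ : TopologicalSpace (A ⧸ Subgroup.center A) := ⊥
    have hdQ : DiscreteTopology (A ⧸ Subgroup.center A) := ⟨rfl⟩
    have hdiscQ : DiscreteTopology (G ⧸ Subgroup.center G) :=
      QuotientGroup.discreteTopology_iff.2 hopen
    let φ : A →* G ⧸ Subgroup.center G :=
      (QuotientGroup.mk' (Subgroup.center G)).comp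
        ((QuotientGroup.mk' (antidiag p c)).comp (MonoidHom.inl A (Multiplicative ℤ_[p])))
    have hφ : ∀ a, φ a = QuotientGroup.mk (QuotientGroup.mk (a, 1) : G) := fun a => rfl
    have hφs : Function.Surjective φ := by
      intro q
      obtain ⟨g, rfl⟩ := QuotientGroup.mk_surjective q
      obtain ⟨⟨a, z⟩, rfl⟩ := QuotientGroup.mk_surjective g
      refine ⟨a, ?_⟩
      rw [hφ]
      refine QuotientGroup.eq.2 ?_
      show (QuotientGroup.mk ((a, 1)⁻¹ * (a, z)) : G) ∈ Subgroup.center G
      have h1 : ((a, 1)⁻¹ * (a, z) : A × Multiplicative ℤ_[p]) = (a⁻¹ * a, 1⁻¹ * z) := rfl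
      rw [h1, hcentral, inv_mul_cancel]
      exact Subgroup.one_mem _
    have hφk : ∀ a, φ a = 1 ↔ a ∈ Subgroup.center A := by
      intro a
      rw [hφ, QuotientGroup.eq_one_iff, hcentral]
    have hker : φ.ker = Subgroup.center A := by
      ext a
      rw [MonoidHom.mem_ker, hφk]
    let ψ : A ⧸ Subgroup.center A →* G ⧸ Subgroup.center G :=
      QuotientGroup.lift (Subgroup.center A) φ (fun a ha => (hφk a).2 ha)
    have hψ : ∀ a : A, ψ (QuotientGroup.mk a) = φ a := fun a => rfl
    have hψb : Function.Bijective ψ := by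
      constructor
      · rw [injective_iff_map_eq_one]
        intro q hq
        obtain ⟨a, rfl⟩ := QuotientGroup.mk_surjective q
        rw [hψ, hφk] at hq
        exact (QuotientGroup.eq_one_iff a).2 hq
      · intro q
        obtain ⟨a, rfl⟩ := hφs q
        exact ⟨QuotientGroup.mk a, rfl⟩
    let E := MulEquiv.ofBijective ψ hψb
    constructor
    · intro h
      have h1 : IsHTM (G ⧸ Subgroup.center G) := htm_quotient _ h
      exact h1.of_surjective E.symm.toMonoidHom continuous_of_discreteTopology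
        E.symm.surjective
    · intro h
      have h1 : IsHTM (G ⧸ Subgroup.center G) :=
        IsHTM.of_surjective E.toMonoidHom continuous_of_discreteTopology E.surjective h
      exact htm_of_quotient htf hopen e _ hpk hexp h1

end Pool.Agent.HMG
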