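import Mathlib

set_option autoImplicit false

/-!
# Minimal, totally minimal, hereditarily minimal and hereditarily totally minimal groups

Definitions for problem MP_fd686d_al.  All groups to which they are applied are Hausdorff.
-/

namespace Pool.Agent.HMG

/-- The topological group `G`, with topology `t`, is minimal: there is no strictly coarser
Hausdorff group topology on `G`.  In Mathlib `t ≤ s` says that `s` is coarser than `t`. -/
def IsMinimalGroup (G : Type*) [Group G] [t : TopologicalSpace G] : Prop :=
  ∀ s : TopologicalSpace G, @T2Space G s → @IsTopologicalGroup G s _ → t ≤ s → s = t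

/-- `G` is totally minimal: `G ⧸ N`, with the quotient topology, is minimal for every closed
normal subgroup `N`. -/
def IsTotallyMinimalGroup (G : Type*) [Group G] [TopologicalSpace G] : Prop :=
  ∀ (N : Subgroup G) (_ : N.Normal), IsClosed (N : Set G) → IsMinimalGroup (G ⧸ N)

/-- `G` is hereditarily minimal: every subgroup, with the subspace topology, is minimal. -/
def IsHM (G : Type*) [Group G] [TopologicalSpace G] : Prop :=
  ∀ H : Subgroup G, IsMinimalGroup H

/-- `G` is hereditarily totally minimal: every subgroup, with the subspace topology, is
totally minimal. -/
def IsHTM (G : Type*) [Group G] [TopologicalSpace G] : Prop :=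
  ∀ H : Subgroup G, IsTotallyMinimalGroup H

end Pool.Agent.HMG
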