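import Pool.Agent.HMG.Padic

set_option autoImplicit false

/-!
# Torsion-free groups with open centre `ℤ_p` and central quotient of bounded exponent
-/

open Topology Filter

namespace Pool.Agent.HMG

theorem finite_range_of_factor {α β γ : Type*} [Finite γ] (φ : α → β) (g : α → γ)
    (h : ∀ a b, g a = g b → φ a = φ b) : (Set.range φ).Finite := by
  have h1 : Finite (Set.range φ) := by
    refine Finite.of_injective (fun k : Set.range φ => g k.2.choose) ?_
    intro a b hab
    have h2 := h _ _ hab
    rw [a.2.choose_spec, b.2.choose_spec] at h2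
    exact Subtype.ext h2
  exact Set.toFinite _

/-- Hereditary total minimality passes to quotients by normal subgroups. -/
theorem htm_quotient {G : Type*} [Group G] [TopologicalSpace G] (Z : Subgroup G) [Z.Normal]
    (h : IsHTM G) : IsHTM (G ⧸ Z) := by
  intro H
  let K : Subgroup G := H.comap (QuotientGroup.mk' Z)
  let f : K →* H := ((QuotientGroup.mk' Z).comp K.subtype).codRestrict H (fun x => x.2)
  have hf : Continuous f := by
    refine Continuous.subtype_mk ?_ _
    exact QuotientGroup.continuous_mk.comp continuous_subtype_val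
  have hs : Function.Surjective f := by
    rintro ⟨y, hy⟩
    obtain ⟨x, rfl⟩ := QuotientGroup.mk'_surjective Z y
    exact ⟨⟨x, hy⟩, rfl⟩
  exact (h K).of_surjective f hf hs

variable {p : ℕ} [hp : Fact p.Prime]

section
variable {G : Type*} [Group G] [TopologicalSpace G]

theorem center_sub_min (e : Subgroup.center G ≃ₜ* Multiplicative ℤ_[p]) (C : Subgroup G)
    (hC : C ≤ Subgroup.center G) : IsMinimalGroup C := by
  let f : C →* Multiplicative ℤ_[p] :=
    (e.toMulEquiv.toMonoidHom).comp (Subgroup.inclusion hC)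
  refine isMinimalGroup_of_inducing f ?_ ?_
  · have h1 : IsInducing (Subgroup.inclusion hC) := by
      refine ⟨?_⟩
      show TopologicalSpace.induced _ _ =
        TopologicalSpace.induced _ (TopologicalSpace.induced _ _)
      rw [induced_compose]
      rfl
    exact e.toHomeomorph.isInducing.comp h1
  · exact e.injective.comp (Subgroup.inclusion_injective hC)

theorem nbhd_dvd (hopen : IsOpen (Subgroup.center G : Set G))
    (e : Subgroup.center G ≃ₜ* Multiplicative ℤ_[p]) (w : ℤ_[p]) (hw : w ≠ 0) :
    {g : G | ∃ h : g ∈ Subgroup.center G, w ∣ (e ⟨g, h⟩).toAdd} ∈ 𝓝 (1 : G) := by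
  have h1 : (fun z : Subgroup.center G => (e z).toAdd) ⁻¹' {x | w ∣ x} ∈
      𝓝 (1 : Subgroup.center G) := by
    have hc : Continuous (fun z : Subgroup.center G => (e z).toAdd) :=
      continuous_toAdd.comp e.continuous
    refine hc.continuousAt ?_
    have h0 : (e 1).toAdd = 0 := by
      rw [map_one]
      rfl
    rw [h0]
    exact dvd_mem_nhds w hw
  have h2 := hopen.isOpenEmbedding_subtypeVal.isOpenMap.image_mem_nhds h1
  refine mem_of_superset h2 ?_
  rintro _ ⟨z, hz, rfl⟩
  exact ⟨z.2, hz⟩

/-- Torsion-free, open centre `ℤ_p`, central quotient of bounded exponent: hereditarily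
minimal. -/
theorem isHM_of_exponent [IsTopologicalGroup G]
    (htf : ∀ (g : G) (m : ℕ), 0 < m → g ^ m = 1 → g = 1)
    (hopen : IsOpen (Subgroup.center G : Set G))
    (e : Subgroup.center G ≃ₜ* Multiplicative ℤ_[p])
    (n : ℕ) (hn : 0 < n) (hexp : ∀ g : G, g ^ n ∈ Subgroup.center G) : IsHM G := by
  have hn0 : (n : ℤ_[p]) ≠ 0 := by
    exact_mod_cast hn.ne'
  refine criterion (Subgroup.center G) (center_sub_min e) n _ (nbhd_dvd hopen e n hn0) ?_
  intro g hg
  refine ⟨hexp g, ?_⟩
  rintro ⟨h, y, hy⟩
  apply hg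
  obtain ⟨w, hw⟩ := e.surjective (Multiplicative.ofAdd y)
  have hw1 : w ^ n = ⟨g ^ n, h⟩ := by
    apply e.injective
    rw [map_pow, hw]
    have h1 : e ⟨g ^ n, h⟩ = Multiplicative.ofAdd ((n : ℤ_[p]) * y) := hy
    rw [h1, ← nsmul_eq_mul, ofAdd_nsmul]
  have hw2 : (w : G) ^ n = g ^ n := by
    have h2 := congrArg (Subtype.val) hw1
    simpa using h2
  have hcomm : Commute g ((w : G)⁻¹) := by
    have h3 : Commute (w : G) g := (Subgroup.mem_center_iff.1 w.2 g).symm
    exact h3.symm.inv_right
  have h4 : (g * (w : G)⁻¹) ^ n = 1 := by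
    rw [hcomm.mul_pow, inv_pow, hw2, mul_inv_cancel]
  have h5 : g = w := mul_inv_eq_one.1 (htf _ n hn h4)
  rw [h5]
  exact w.2

/-- If moreover the central quotient is hereditarily totally minimal, so is the group. -/
theorem htm_of_quotient [IsTopologicalGroup G]
    (htf : ∀ (g : G) (m : ℕ), 0 < m → g ^ m = 1 → g = 1)
    (hopen : IsOpen (Subgroup.center G : Set G))
    (e : Subgroup.center G ≃ₜ* Multiplicative ℤ_[p])
    (n : ℕ) (hn : 0 < n) (hexp : ∀ g : G, g ^ n ∈ Subgroup.center G)
    (hQ : IsHTM (G ⧸ Subgroup.center G)) : IsHTM G := by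
  have hHM := isHM_of_exponent htf hopen e n hn hexp
  intro H N hN hNc
  by_cases hbot : N = ⊥
  · subst hbot
    refine (hHM H).of_bijective (QuotientGroup.mk' (⊥ : Subgroup H))
      QuotientGroup.continuous_mk ⟨?_, QuotientGroup.mk'_surjective _⟩
    intro a b hab
    have h1 := QuotientGroup.eq.1 hab
    rw [Subgroup.mem_bot] at h1
    exact inv_mul_eq_one.1 h1
  · obtain ⟨x, hx, hx1⟩ : ∃ x ∈ N, x ≠ 1 := by
      by_contra hcon
      push Not at hcon
      exact hbot ((Subgroup.eq_bot_iff_forall N).2 hcon)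
    have hxG : (x : G) ≠ 1 := fun h => hx1 (Subtype.ext h)
    have hxn : (x : G) ^ n ≠ 1 := fun h => hxG (htf _ n hn h)
    obtain ⟨y, hy⟩ : ∃ y : Subgroup.center G, (y : G) = (x : G) ^ n := ⟨⟨_, hexp x⟩, rfl⟩
    obtain ⟨w, hw⟩ : ∃ w : ℤ_[p], w = (e y).toAdd := ⟨_, rfl⟩
    have hw0 : w ≠ 0 := by
      intro h0
      rw [hw] at h0
      have h1 : e y = 1 := h0
      have h2 : y = 1 := by
        apply e.injective
        rw [h1, map_one]
      apply hxn
      rw [← hy, h2]
      rfl
    obtain ⟨A, hA, hAN⟩ := isClosed_induced_iff.1 hNc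
    -- elements of the centre divisible by `w` lie in `N`
    have hdiv : ∀ c : H, (∃ h : (c : G) ∈ Subgroup.center G, w ∣ (e ⟨c, h⟩).toAdd) → c ∈ N := by
      rintro c ⟨h, z, hz⟩
      have hcont : Continuous (fun z : ℤ_[p] => (e.symm (Multiplicative.ofAdd (w * z)) : G)) :=
        continuous_subtype_val.comp (e.symm.continuous.comp
          (continuous_ofAdd.comp (continuous_const.mul continuous_id)))
      have h1 : (e.symm (Multiplicative.ofAdd (w * z)) : G) ∈ A := by
        refine PadicInt.denseRange_natCast.induction_on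
          (p := fun z : ℤ_[p] => (e.symm (Multiplicative.ofAdd (w * z)) : G) ∈ A) z ?_ ?_
        · exact hA.preimage hcont
        · intro k
          have h2 : e.symm (Multiplicative.ofAdd (w * (k : ℤ_[p]))) = y ^ k := by
            rw [e.symm_apply_eq, map_pow, mul_comm, ← nsmul_eq_mul, ofAdd_nsmul, hw]
            rfl
          rw [h2]
          have h3 : ((x ^ (n * k) : H) : G) = ((y ^ k : Subgroup.center G) : G) := by
            push_cast
            rw [hy, pow_mul]
          rw [← h3]
          have h4 : x ^ (n * k) ∈ (N : Set H) := N.pow_mem hx _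
          rw [← hAN] at h4
          exact h4
      have h5 : e.symm (Multiplicative.ofAdd (w * z)) = ⟨c, h⟩ := by
        rw [e.symm_apply_eq, ← hz]
        rfl
      rw [h5] at h1
      have h6 : c ∈ Subtype.val ⁻¹' A := h1
      rw [hAN] at h6
      exact h6
    have hNopen : IsOpen (N : Set H) := by
      refine Subgroup.isOpen_of_mem_nhds N (g := 1) ?_
      have h1 := nbhd_dvd hopen e w hw0
      have h2 : ContinuousAt (Subtype.val : H → G) 1 := continuous_subtype_val.continuousAt
      have h3 := h2 (by simpa using h1)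
      exact mem_of_superset h3 fun c hc => hdiv c hc
    have hdisc : DiscreteTopology (H ⧸ N) := QuotientGroup.discreteTopology_iff.2 hNopen
    have hdiscQ : DiscreteTopology (G ⧸ Subgroup.center G) :=
      QuotientGroup.discreteTopology_iff.2 hopen
    -- the algebraic part
    let f : H →* H.map (QuotientGroup.mk' (Subgroup.center G)) :=
      (QuotientGroup.mk' (Subgroup.center G)).subgroupMap H
    have hfs : Function.Surjective f := MonoidHom.subgroupMap_surjective _ _
    have hN' : (N.map f).Normal := hN.map f hfs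
    have hmin : IsMinimalGroup ((H.map (QuotientGroup.mk' (Subgroup.center G))) ⧸ N.map f) :=
      hQ _ (N.map f) hN' (isClosed_discrete _)
    have hdiscP : DiscreteTopology
        ((H.map (QuotientGroup.mk' (Subgroup.center G))) ⧸ N.map f) :=
      QuotientGroup.discreteTopology_iff.2 (isOpen_discrete _)
    have hNTP : NT ((H.map (QuotientGroup.mk' (Subgroup.center G))) ⧸ N.map f) := by
      intro s hs hg
      have h1 := hmin s hs hg (by
        rw [hdiscP.eq_bot]
        exact bot_le)
      rw [h1]
      exact hdiscP.eq_bot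
    let π : H ⧸ N →* ((H.map (QuotientGroup.mk' (Subgroup.center G))) ⧸ N.map f) :=
      QuotientGroup.map N (N.map f) f (Subgroup.le_comap_map f N)
    have hπ : ∀ h : H, π (QuotientGroup.mk h) = QuotientGroup.mk (f h) := fun h => rfl
    have hπs : Function.Surjective π := by
      intro q
      obtain ⟨q', rfl⟩ := QuotientGroup.mk_surjective q
      obtain ⟨h, rfl⟩ := hfs q'
      exact ⟨QuotientGroup.mk h, rfl⟩
    have hNT : NT (H ⧸ N) := by
      refine NT.of_finite_ker π hπs ?_ hNTP
      obtain ⟨m, hm⟩ := exists_mod w hw0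
      have hpm : NeZero (p ^ m) := ⟨pow_ne_zero _ hp.out.ne_zero⟩
      let φ : {c : H // (c : G) ∈ Subgroup.center G} → H ⧸ N := fun c => QuotientGroup.mk c.1
      let g : {c : H // (c : G) ∈ Subgroup.center G} → ZMod (p ^ m) :=
        fun c => PadicInt.toZModPow m (e ⟨c.1, c.2⟩).toAdd
      have hfin : (Set.range φ).Finite := by
        refine finite_range_of_factor φ g ?_
        intro a b hab
        have h1 := hm _ _ hab
        refine QuotientGroup.eq.2 ?_
        have hcen : (((a.1⁻¹ * b.1 : H)) : G) ∈ Subgroup.center G := by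
          push_cast
          exact Subgroup.mul_mem _ (Subgroup.inv_mem _ a.2) b.2
        refine hdiv _ ⟨hcen, ?_⟩
        have h2 : (⟨((a.1⁻¹ * b.1 : H) : G), hcen⟩ : Subgroup.center G) =
            (⟨a.1, a.2⟩ : Subgroup.center G)⁻¹ * ⟨b.1, b.2⟩ := by
          ext
          push_cast
          rfl
        rw [h2, map_mul, map_inv]
        have h3 : Multiplicative.toAdd ((e ⟨a.1, a.2⟩)⁻¹ * e ⟨b.1, b.2⟩) =
            -((e ⟨a.1, a.2⟩).toAdd - (e ⟨b.1, b.2⟩).toAdd) := by
          rw [toAdd_mul, toAdd_inv]
          ring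
        rw [h3]
        exact (dvd_neg).2 h1
      refine hfin.subset ?_
      intro k hk
      obtain ⟨h, rfl⟩ := QuotientGroup.mk_surjective k
      have h1 : π (QuotientGroup.mk h) = 1 := hk
      rw [hπ, QuotientGroup.eq_one_iff] at h1
      obtain ⟨m', hm', hfm⟩ := h1
      have h2 : ((m'⁻¹ * h : H) : G) ∈ Subgroup.center G := by
        have h3 := congrArg Subtype.val hfm
        have h4 : (QuotientGroup.mk (m' : G) : G ⧸ Subgroup.center G) = QuotientGroup.mk (h : G) :=
          h3
        have h5 := QuotientGroup.eq.1 h4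
        push_cast
        exact h5
      refine ⟨⟨m'⁻¹ * h, h2⟩, ?_⟩
      show (QuotientGroup.mk (m'⁻¹ * h) : H ⧸ N) = QuotientGroup.mk h
      rw [QuotientGroup.mk_mul, QuotientGroup.mk_inv, (QuotientGroup.eq_one_iff m').2 hm']
      simp
    intro s hs hg _
    rw [hNT s hs hg]
    exact hdisc.eq_bot.symm

end

end Pool.Agent.HMG
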