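import Pool.Agent.HMG.Basic

set_option autoImplicit false

/-!
# Subgroups of the additive group of `ℤ_p` are minimal
-/

open Topology Filter

namespace Pool.Agent.HMG

variable {p : ℕ} [hp : Fact p.Prime]

theorem dvd_mem_nhds (w : ℤ_[p]) (hw : w ≠ 0) : {x : ℤ_[p] | w ∣ x} ∈ 𝓝 (0 : ℤ_[p]) := by
  refine Filter.mem_of_superset (Metric.ball_mem_nhds 0 (norm_pos_iff.2 hw)) ?_
  intro x hx
  have h1 : ‖x‖ ≤ ‖w‖ := (mem_ball_zero_iff.1 hx).le
  have hw' : (w : ℚ_[p]) ≠ 0 := by
    simpa using hw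
  refine ⟨⟨(x : ℚ_[p]) / w, ?_⟩, ?_⟩
  · rw [norm_div]
    exact div_le_one_of_le₀ h1 (norm_nonneg _)
  · refine Subtype.ext ?_
    show (x : ℚ_[p]) = (w : ℚ_[p]) * ((x : ℚ_[p]) / w)
    field_simp

theorem exists_unit_mul (a : ℤ_[p]) (ha : a ≠ 0) :
    ∃ u : ℤ_[p], u * a = ((p ^ a.valuation : ℕ) : ℤ_[p]) := by
  refine ⟨((PadicInt.unitCoeff ha)⁻¹ : ℤ_[p]ˣ), ?_⟩
  have h2 := PadicInt.unitCoeff_spec ha
  have h3 : (((PadicInt.unitCoeff ha)⁻¹ : ℤ_[p]ˣ) : ℤ_[p]) * a =
      (((PadicInt.unitCoeff ha)⁻¹ : ℤ_[p]ˣ) : ℤ_[p]) *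
        (PadicInt.unitCoeff ha * (p : ℤ_[p]) ^ a.valuation) := congrArg _ h2
  rw [h3, ← mul_assoc, Units.inv_mul, one_mul]
  push_cast
  rfl

theorem exists_mod (y : ℤ_[p]) (hy : y ≠ 0) : ∃ m : ℕ, ∀ a b : ℤ_[p],
    PadicInt.toZModPow m a = PadicInt.toZModPow m b → y ∣ a - b := by
  refine ⟨y.valuation, fun a b hab => ?_⟩
  have h1 : a - b ∈ RingHom.ker (PadicInt.toZModPow (p := p) y.valuation) := by
    rw [RingHom.mem_ker, map_sub, hab, sub_self]
  rw [PadicInt.ker_toZModPow, Ideal.mem_span_singleton] at h1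
  refine dvd_trans ?_ h1
  obtain ⟨u, hu⟩ := exists_unit_mul y hy
  refine ⟨u, ?_⟩
  rw [mul_comm, hu]
  push_cast
  rfl

/-- A group embedded (topologically) in `ℤ_p` is minimal. -/
theorem isMinimalGroup_of_inducing {C : Type*} [Group C] [tC : TopologicalSpace C]
    (f : C →* Multiplicative ℤ_[p]) (hf : IsInducing f) (hi : Function.Injective f) :
    IsMinimalGroup C := by
  have hgC : @IsTopologicalGroup C tC _ := by
    have h0 := @topologicalGroup_induced (Multiplicative ℤ_[p]) C _ _ _ _ _ _ _ f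
    rw [hf.eq_induced]
    exact h0
  have hnh : ∀ c, @nhds C tC c = Filter.comap f (𝓝 (f c)) := fun c => hf.nhds_eq_comap c
  intro s hs hg hle
  obtain ⟨F, hFdef⟩ : ∃ F : Filter (Multiplicative ℤ_[p]), F = Filter.map f (@nhds C s 1) :=
    ⟨_, rfl⟩
  have hone : ClusterPt (1 : Multiplicative ℤ_[p]) F := by
    rw [clusterPt_iff_nonempty]
    intro U hU V hV
    rw [hFdef, Filter.mem_map] at hV
    refine ⟨1, mem_of_mem_nhds hU, ?_⟩
    have h1 : (1 : C) ∈ f ⁻¹' V := @mem_of_mem_nhds C s 1 _ hV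
    simpa using h1
  have hmul : ∀ x y, ClusterPt x F → ClusterPt y F → ClusterPt (x * y) F := by
    intro x y hx hy
    rw [clusterPt_iff_forall_mem_closure] at hx hy ⊢
    intro V hV
    rw [hFdef, Filter.mem_map] at hV
    have hc : @ContinuousAt (C × C) C (@instTopologicalSpaceProd C C s s) s
        (fun q : C × C => q.1 * q.2) (1, 1) :=
      (@ContinuousMul.continuous_mul C s _ _).continuousAt
    have h1 : (fun q : C × C => q.1 * q.2) ⁻¹' (f ⁻¹' V) ∈
        @nhds (C × C) (@instTopologicalSpaceProd C C s s) (1, 1) := hc (by simpa using hV)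
    rw [@nhds_prod_eq C C s s, Filter.mem_prod_self_iff] at h1
    obtain ⟨W, hW, hWV⟩ := h1
    have hWF : f '' W ∈ F := by
      rw [hFdef]
      exact Filter.image_mem_map hW
    refine map_mem_closure₂ continuous_mul (hx _ hWF) (hy _ hWF) ?_
    rintro _ ⟨a, ha, rfl⟩ _ ⟨b, hb, rfl⟩
    have h2 : (a, b) ∈ W ×ˢ W := ⟨ha, hb⟩
    have h3 : f (a * b) ∈ V := hWV h2
    simpa using h3
  have hCl : ∀ c : C, ClusterPt (f c) F → c = 1 := by
    intro c hc
    by_contra hne
    obtain ⟨u, v, hu, hv, huv⟩ := @t2_separation_nhds C s hs 1 c (Ne.symm hne)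
    have hv' : v ∈ @nhds C tC c := nhds_mono hle hv
    rw [hnh] at hv'
    obtain ⟨v', hv', hvv⟩ := hv'
    have huF : f '' u ∈ F := by
      rw [hFdef]
      exact Filter.image_mem_map hu
    obtain ⟨y, hy1, hy2⟩ := clusterPt_iff_nonempty.1 hc hv' huF
    obtain ⟨d, hd, rfl⟩ := hy2
    exact Set.disjoint_left.1 huv hd (hvv hy1)
  have hle1 : F ≤ 𝓝 1 := by
    by_cases htriv : ∀ c : C, c = 1
    · rw [hFdef]
      intro U hU
      rw [Filter.mem_map]
      refine Filter.mem_of_superset Filter.univ_mem ?_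
      intro c _
      rw [htriv c]
      simpa using mem_of_mem_nhds hU
    · push Not at htriv
      obtain ⟨c, hc⟩ := htriv
      refine le_nhds_of_unique_clusterPt ?_
      intro x hx
      by_contra hx1
      have hpow : ∀ n : ℕ, ClusterPt (x ^ n) F := by
        intro n
        induction n with
        | zero => simpa using hone
        | succ n ih =>
          rw [pow_succ]
          exact hmul _ _ ih hx
      have hz : ∀ z : ℤ_[p], ClusterPt (Multiplicative.ofAdd (z * x.toAdd)) F := by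
        intro z
        refine PadicInt.denseRange_natCast.induction_on
          (p := fun z : ℤ_[p] => ClusterPt (Multiplicative.ofAdd (z * x.toAdd)) F) z ?_ ?_
        · have h1 : Continuous (fun z : ℤ_[p] => Multiplicative.ofAdd (z * x.toAdd)) :=
            continuous_ofAdd.comp (continuous_id.mul continuous_const)
          exact (isClosed_setOfPred_clusterPt (f := F)).preimage h1
        · intro n
          have h2 : Multiplicative.ofAdd ((n : ℤ_[p]) * x.toAdd) = x ^ n := by
            rw [← nsmul_eq_mul, ofAdd_nsmul]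
            rfl
          rw [h2]
          exact hpow n
      have ha : x.toAdd ≠ 0 := fun h => hx1 h
      have hb : (f c).toAdd ≠ 0 := fun h => hc (hi (by rw [map_one]; exact h))
      obtain ⟨u, hu⟩ := exists_unit_mul x.toAdd ha
      have h3 := hz ((f c).toAdd * u)
      have h4 : (f c).toAdd * u * x.toAdd =
          ((p ^ x.toAdd.valuation : ℕ) : ℤ_[p]) * (f c).toAdd := by
        rw [mul_assoc, hu, mul_comm]
      rw [h4] at h3
      have h6 : Multiplicative.ofAdd (((p ^ x.toAdd.valuation : ℕ) : ℤ_[p]) * (f c).toAdd) =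
          f (c ^ (p ^ x.toAdd.valuation)) := by
        rw [← nsmul_eq_mul, ofAdd_nsmul, map_pow]
        rfl
      have h7 := hCl (c ^ (p ^ x.toAdd.valuation)) (by rw [← h6]; exact h3)
      rw [h7, map_one] at h6
      have h8 : ((p ^ x.toAdd.valuation : ℕ) : ℤ_[p]) * (f c).toAdd = 0 := h6
      rcases mul_eq_zero.1 h8 with h9 | h9
      · rw [Nat.cast_eq_zero] at h9
        exact absurd h9 (pow_ne_zero _ hp.out.ne_zero)
      · exact hb h9
  refine @IsTopologicalGroup.ext C _ s tC hg hgC ?_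
  refine le_antisymm ?_ (nhds_mono hle)
  rw [hnh, map_one]
  refine Filter.map_le_iff_le_comap.1 ?_
  rw [← hFdef]
  exact hle1

end Pool.Agent.HMG
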